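import Pool.Agent.WR2.StmtsC

/-!
# Squad WR2, row WRB: the densities on the integers
-/

set_option autoImplicit false

noncomputable section

namespace Pool.Agent.WR2.H7

open Pool.Agent.WIR Pool.Agent.WR2

theorem wrb (hAva : AvaStmt) (hWms : WmsStmt) (hWcf : WcfStmt) : WrbStmt := by
  obtain ⟨-, hA2, -, -⟩ := hAva
  refine ⟨fun r m => (hWms r).1 _, ?_, ?_⟩
  · intro r
    obtain ⟨h1, h2⟩ := hA2 r (W r)
    refine ⟨h1, ?_⟩
    have h3 : av r (wr r) = (∑ z, W r z) / 3 ^ r := h2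
    rw [h3, div_le_one (by positivity)]
    exact (hWms r).2.1
  · intro A
    obtain ⟨C, hC, h⟩ := hWcf A
    refine ⟨C, hC, ?_⟩
    intro N
    have hpj : ∀ m : ℕ, pj N (N + 1) ((m : ℕ) : ZMod (3 ^ (N + 1))) = ((m : ℕ) : ZMod (3 ^ N)) := by
      intro m
      unfold pj
      rw [ZMod.val_natCast]
      rw [ZMod.natCast_eq_natCast_iff]
      exact (Nat.mod_modEq m (3 ^ (N + 1))).of_dvd (pow_dvd_pow 3 (Nat.le_succ N))
    obtain ⟨-, h2⟩ := hA2 (N + 1) (fun z => |W (N + 1) z - W N (pj N (N + 1) z)|)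
    have h3 : av (N + 1) (fun m => |wr (N + 1) m - wr N m|) =
        (∑ z : ZMod (3 ^ (N + 1)), |W (N + 1) z - W N (pj N (N + 1) z)|) / 3 ^ (N + 1) := by
      rw [← h2]
      refine congrArg (av (N + 1)) (funext fun m => ?_)
      unfold wr
      rw [hpj]
    rw [h3, div_le_iff₀ (by positivity)]
    exact h N

end Pool.Agent.WR2.H7
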